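import Mathlib
import Pool.Agent.Y924.DV.Comp

/-!
# Largest subsets of `[1,n]` with no element dividing two others

We prove that `f(n)/n` converges, give a formula for the limit `c` together with finite two-sided
approximations converging to it, and prove `0.67294 ≤ c ≤ 0.673`.
-/

namespace Pool.Agent.Results.MP_24d8b2_nt.DensityExists

open Filter Topology

/-- No element of `A` divides two others. -/
def Admissible (A : Finset ℕ) : Prop :=
  ∀ a ∈ A, ∀ b ∈ A, ∀ c ∈ A, a ≠ b → a ≠ c → b ≠ c → a ∣ b → ¬ a ∣ c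

/-- The largest cardinality of an admissible subset of `[1,n]`. -/
noncomputable def f (n : ℕ) : ℕ :=
  sSup {k | ∃ A : Finset ℕ, A ⊆ Finset.Icc 1 n ∧ Admissible A ∧ A.card = k}

open Classical in
/-- The numbers in `[1,j]` all of whose prime factors are `< N`. -/
noncomputable def smooth (N j : ℕ) : Finset ℕ :=
  (Finset.Icc 1 j).filter (fun s => ∀ p, p.Prime → p ∣ s → p < N)

/-- The largest cardinality of an admissible subset of `smooth N j`. -/
noncomputable def g (N j : ℕ) : ℕ :=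
  sSup {k | ∃ A : Finset ℕ, A ⊆ smooth N j ∧ Admissible A ∧ A.card = k}

/-- The product of `1 - 1/p` over the primes `p < N`. -/
noncomputable def rho (N : ℕ) : ℝ := ∏ p ∈ Nat.primesBelow N, (1 - 1 / (p : ℝ))

/-- The `N`-th approximation of the density (the term with `j = 0` is `0`). -/
noncomputable def C (N : ℕ) : ℝ := rho N * ∑' j : ℕ, (g N j : ℝ) / ((j : ℝ) * (j + 1))

/-- Finite lower expression. -/
noncomputable def lo (N M : ℕ) : ℝ :=
  rho N * ∑ j ∈ Finset.Icc 1 M, (g N j : ℝ) / ((j : ℝ) * (j + 1)) - 1 / N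

/-- Finite upper expression. -/
noncomputable def hi (N M : ℕ) : ℝ :=
  1 - rho N * ∑ j ∈ Finset.Icc 1 M, (((smooth N j).card : ℝ) - g N j) / ((j : ℝ) * (j + 1))

theorem f_eq (n : ℕ) : f n = Pool.Agent.Y924.DV.f n := by
  unfold f Pool.Agent.Y924.DV.f Pool.Agent.Y924.DV.mx
  congr 1
  ext k
  simp only [Set.mem_ofPred_eq]
  constructor
  · rintro ⟨A, h1, h2, h3⟩
    exact ⟨A, h1, fun _ _ => trivial, h2, h3⟩
  · rintro ⟨A, h1, _, h2, h3⟩
    exact ⟨A, h1, h2, h3⟩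

theorem mem_smooth {N j s : ℕ} :
    s ∈ smooth N j ↔ s ∈ Finset.Icc 1 j ∧ s ∈ Nat.smoothNumbers N := by
  classical
  unfold smooth
  rw [Finset.mem_filter, Nat.mem_smoothNumbers']

theorem g_eq (N j : ℕ) : g N j = Pool.Agent.Y924.DV.g N j := by
  unfold g Pool.Agent.Y924.DV.g Pool.Agent.Y924.DV.mx
  congr 1
  ext k
  simp only [Set.mem_ofPred_eq]
  constructor
  · rintro ⟨A, h1, h2, h3⟩
    exact ⟨A, fun a ha => (mem_smooth.mp (h1 ha)).1, fun a ha => (mem_smooth.mp (h1 ha)).2, h2, h3⟩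
  · rintro ⟨A, h1, h0, h2, h3⟩
    exact ⟨A, fun a ha => mem_smooth.mpr ⟨h1 ha, h0 a ha⟩, h2, h3⟩

theorem card_smooth (N j : ℕ) : (smooth N j).card = Pool.Agent.Y924.DV.psi N j := by
  unfold Pool.Agent.Y924.DV.psi
  congr 1
  ext s
  rw [mem_smooth, Pool.Agent.Y924.DV.mem_smt, Finset.mem_Icc, and_assoc]

theorem sum_Icc (F : ℕ → ℝ) (M : ℕ) :
    ∑ j ∈ Finset.Icc 1 M, F j / ((j : ℝ) * (j + 1)) =
      ∑ j ∈ Finset.range (M + 1), F j / ((j : ℝ) * (j + 1)) := by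
  rw [Finset.range_eq_Ico, Finset.sum_eq_sum_Ico_succ_bot (Nat.succ_pos M)]
  simp only [Nat.cast_zero, zero_mul, div_zero, zero_add]
  rfl

theorem lo_eq (N M : ℕ) : lo N M = Pool.Agent.Y924.DV.lo N (M + 1) := by
  unfold lo Pool.Agent.Y924.DV.lo
  rw [sum_Icc (fun j => (g N j : ℝ))]
  simp only [g_eq]
  rfl

theorem hi_eq (N M : ℕ) : hi N M = Pool.Agent.Y924.DV.hi N (M + 1) := by
  unfold hi Pool.Agent.Y924.DV.hi
  rw [sum_Icc (fun j => ((smooth N j).card : ℝ) - (g N j : ℝ))]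
  simp only [g_eq, card_smooth]
  rfl

theorem C_eq (N : ℕ) : C N = Pool.Agent.Y924.DV.cc N := by
  unfold C Pool.Agent.Y924.DV.cc
  simp only [g_eq]
  rfl

/-- `f(n)/n` converges to a real number `c` with `0.67294 ≤ c ≤ 0.673`; the series `C N` converges
and `c ≤ C N ≤ c + 1/N`; and `lo N M ≤ c ≤ hi N M`, where the difference `hi N M - lo N M` of the
two finite expressions tends to `1/N` as `M → ∞`. -/
theorem result :
    ∃ c : ℝ, Tendsto (fun n : ℕ => (f n : ℝ) / n) atTop (𝓝 c) ∧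
      0.67294 ≤ c ∧ c ≤ 0.673 ∧
      ∀ N : ℕ, 1 ≤ N →
        (Summable (fun j : ℕ => (g N j : ℝ) / ((j : ℝ) * (j + 1))) ∧ c ≤ C N ∧ C N ≤ c + 1 / N) ∧
        (∀ M : ℕ, lo N M ≤ c ∧ c ≤ hi N M) ∧
        Tendsto (fun M : ℕ => hi N M - lo N M) atTop (𝓝 (1 / N)) := by
  obtain ⟨c, h1, h2, h3, h4⟩ := Pool.Agent.Y924.DV.main
  refine ⟨c, ?_, h2, h3, ?_⟩
  · simp only [f_eq]
    exact h1
  · intro N hN
    obtain ⟨a1, a2, a3, a4⟩ := h4 N hN
    refine ⟨⟨?_, ?_, ?_⟩, ?_, ?_⟩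
    · simp only [g_eq]
      exact Pool.Agent.Y924.DV.summable_g N
    · rw [C_eq]; exact a1
    · rw [C_eq]; exact a2
    · intro M
      rw [lo_eq, hi_eq]
      exact a3 (M + 1)
    · simp only [lo_eq, hi_eq]
      exact (tendsto_add_atTop_iff_nat 1).mpr a4

end Pool.Agent.Results.MP_24d8b2_nt.DensityExists
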